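import Mathlib
import Pool.Agent.W667.DT.Stms

set_option autoImplicit false
set_option maxSynthPendingDepth 3
set_option linter.unusedSectionVars false
set_option linter.unusedVariables false

/-!
Project DT, part LIM: spaces of infinite height are at least as bad as the Cantor space.
-/

namespace Pool.Agent.W338.DT

open Pool.Agent.Helper832.GD Pool.Agent.Helper832.GD.Bim ContinuousLinearMap Topology Filter
open Pool.Agent.W667.DT

noncomputable section

/-! ### a finite rank operator turns strong convergence into norm convergence -/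

section FR

variable {E F G : Type} [NormedAddCommGroup E] [NormedSpace ℂ E] [NormedAddCommGroup F]
  [NormedSpace ℂ F] [NormedAddCommGroup G] [NormedSpace ℂ G]

lemma tendsto_comp_finrank (R : E →L[ℂ] F)
    (hR : FiniteDimensional ℂ (LinearMap.range R.toLinearMap)) {ι : Type} (L : Filter ι)
    (D : ι → F →L[ℂ] G) (D0 : F →L[ℂ] G) (h : ∀ x, Tendsto (fun i => D i x) L (𝓝 (D0 x))) :
    Tendsto (fun i => ‖(D i - D0).comp R‖) L (𝓝 0) := by
  classical
  set V := LinearMap.range R.toLinearMap with hV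
  let b := Module.finBasis ℂ V
  let R' : E →L[ℂ] V := R.codRestrict V (fun x => LinearMap.mem_range_self _ x)
  let cc : Fin (Module.finrank ℂ V) → V →L[ℂ] ℂ := fun j => LinearMap.toContinuousLinearMap (b.coord j)
  have hsum : ∀ x, R x = ∑ j, cc j (R' x) • (b j : F) := by
    intro x
    have h1 := b.sum_repr (R' x)
    have h2 := congrArg (Submodule.subtype V) h1
    rw [map_sum] at h2
    simp only [map_smul, Submodule.subtype_apply] at h2
    exact h2.symm
  have hb : ∀ i, ‖(D i - D0).comp R‖ ≤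
      ∑ j, ‖(cc j).comp R'‖ * ‖D i (b j : F) - D0 (b j : F)‖ := by
    intro i
    refine ContinuousLinearMap.opNorm_le_bound _ (Finset.sum_nonneg fun j _ => by positivity)
      fun x => ?_
    rw [comp_apply, hsum x, map_sum, Finset.sum_mul]
    refine (norm_sum_le _ _).trans (Finset.sum_le_sum fun j _ => ?_)
    rw [map_smul, norm_smul]
    have h1 : ‖cc j (R' x)‖ ≤ ‖(cc j).comp R'‖ * ‖x‖ := ((cc j).comp R').le_opNorm x
    have h2 : ‖(D i - D0) (b j : F)‖ = ‖D i (b j : F) - D0 (b j : F)‖ := rfl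
    rw [h2]
    calc ‖cc j (R' x)‖ * ‖D i (b j : F) - D0 (b j : F)‖
        ≤ (‖(cc j).comp R'‖ * ‖x‖) * ‖D i (b j : F) - D0 (b j : F)‖ :=
          mul_le_mul_of_nonneg_right h1 (norm_nonneg _)
      _ = _ := by ring
  refine squeeze_zero (fun i => norm_nonneg _) hb ?_
  have h0 : (0 : ℝ) = ∑ j : Fin (Module.finrank ℂ V), ‖(cc j).comp R'‖ * 0 := by simp
  rw [h0]
  refine tendsto_finsetSum _ fun j _ => Tendsto.const_mul _ ?_
  exact (tendsto_iff_norm_sub_tendsto_zero).1 (h (b j : F))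

lemma tendsto_clm_apply {ι : Type} {L : Filter ι} {D : ι → E →L[ℂ] F} {D0 : E →L[ℂ] F} {x : ι → E}
    {x0 : E} (hD : Tendsto D L (𝓝 D0)) (hx : Tendsto x L (𝓝 x0)) :
    Tendsto (fun i => D i (x i)) L (𝓝 (D0 x0)) :=
  (isBoundedBilinearMap_apply.continuous.tendsto (D0, x0)).comp (hD.prodMk_nhds hx)

end FR

/-! ### composition operators -/

section Cm

variable {X Y Z : Type} [TopologicalSpace X] [CompactSpace X] [TopologicalSpace Y] [CompactSpace Y]
  [TopologicalSpace Z] [CompactSpace Z]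

lemma cm_comp (α : C(Y, X)) (β : C(Z, Y)) : (cm β).comp (cm α) = cm (α.comp β) := by
  ext f z
  rfl

lemma norm_cm_le (α : C(Y, X)) : ‖cm α‖ ≤ 1 := LinearMap.mkContinuous_norm_le _ zero_le_one _

lemma cm_mul (α : C(Y, X)) (a b : C(X, ℂ)) : cm α (a * b) = cm α a * cm α b := rfl

instance (k : ℕ) : FiniteDimensional ℂ C(Fin k → Bool, ℂ) := by
  let f : C(Fin k → Bool, ℂ) →ₗ[ℂ] ((Fin k → Bool) → ℂ) :=
    { toFun := fun g => g
      map_add' := fun _ _ => rfl
      map_smul' := fun _ _ => rfl }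
  exact FiniteDimensional.of_injective f (fun g g' h => by
    ext x
    exact congrFun h x)

/-- put zero after the first `k` coordinates -/
def pi' (k : ℕ) : C(Cantor, Cantor) := (zet k).comp (rho k)

lemma rho_zet (k : ℕ) (s : Fin k → Bool) : rho k (zet k s) = s := by
  funext i
  show (if h : (i : ℕ) < k then s ⟨i, h⟩ else false) = s i
  rw [dif_pos i.2]

lemma finrank_cm_pi (k : ℕ) : FiniteDimensional ℂ (LinearMap.range (cm (pi' k)).toLinearMap) := by
  have h : (cm (pi' k)) = (cm (rho k)).comp (cm (zet k)) := by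
    rw [cm_comp]; rfl
  rw [h]
  have h2 : LinearMap.range ((cm (rho k)).comp (cm (zet k))).toLinearMap ≤
      LinearMap.range (cm (rho k)).toLinearMap := by
    rintro _ ⟨x, rfl⟩
    exact ⟨cm (zet k) x, rfl⟩
  exact Submodule.finiteDimensional_of_le h2

lemma tendsto_cm_pi (b : C(Cantor, ℂ)) : Tendsto (fun N => cm (pi' N) b) atTop (𝓝 b) := by
  have h1 : TendstoUniformly (fun (N : ℕ) (z : Cantor) => pi' N z) id atTop := by
    rw [tendstoUniformly_iff_tendsto, Pi.uniformity, tendsto_iInf]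
    intro i
    rw [tendsto_comap_iff]
    refine tendsto_def.2 fun s hs => ?_
    have h2 : ∀ᶠ q : ℕ × Cantor in atTop ×ˢ ⊤, i < q.1 :=
      tendsto_fst.eventually (eventually_gt_atTop i)
    filter_upwards [h2] with q hq
    show (q.2 i, pi' q.1 q.2 i) ∈ s
    have h3 : pi' q.1 q.2 i = q.2 i := by
      show (if h : i < q.1 then rho q.1 q.2 ⟨i, h⟩ else false) = q.2 i
      rw [dif_pos hq]
      rfl
    rw [h3]
    exact refl_mem_uniformity hs
  have h2 : UniformContinuous b := CompactSpace.uniformContinuous_of_continuous b.continuous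
  have h3 := h2.comp_tendstoUniformly h1
  rw [ContinuousMap.tendsto_iff_tendstoUniformly]
  exact h3

/-- the map of the Cantor space given by finitely many points -/
def ay {Ω : Type} [TopologicalSpace Ω] {k : ℕ} (y : (Fin k → Bool) → Ω) : C(Cantor, Ω) :=
  (⟨y, continuous_of_discreteTopology⟩ : C(Fin k → Bool, Ω)).comp (rho k)

lemma tendsto_ay {Ω : Type} [TopologicalSpace Ω] [CompactSpace Ω] {k : ℕ}
    (y₀ : (Fin k → Bool) → Ω) (a : C(Ω, ℂ)) :
    Tendsto (fun y : (Fin k → Bool) → Ω => cm (ay y) a) (𝓝 y₀) (𝓝 (cm (ay y₀) a)) := by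
  rw [tendsto_iff_norm_sub_tendsto_zero]
  refine squeeze_zero (g := fun y => ∑ s, ‖a (y s) - a (y₀ s)‖) (fun _ => norm_nonneg _)
    (fun y => ?_) ?_
  · refine (ContinuousMap.norm_le _ (Finset.sum_nonneg fun _ _ => norm_nonneg _)).2 fun z => ?_
    show ‖a (y (rho k z)) - a (y₀ (rho k z))‖ ≤ _
    exact Finset.single_le_sum (f := fun s => ‖a (y s) - a (y₀ s)‖) (fun _ _ => norm_nonneg _)
      (Finset.mem_univ (rho k z))
  · have h : Continuous fun y : (Fin k → Bool) → Ω => ∑ s, ‖a (y s) - a (y₀ s)‖ := by fun_prop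
    have h2 := h.tendsto y₀
    simpa using h2

end Cm

/-! ### stages -/

section Stg

variable {Ω : Type} [TopologicalSpace Ω]

/-- the map of the Cantor space of a stage -/
def aOf {r k : ℕ} (S : Stage Ω r k) : C(Cantor, Ω) := ay S.y

/-- the map to the Cantor space of a stage -/
def bOf {r k : ℕ} (S : Stage Ω r k) : C(Ω, Cantor) := (zet k).comp S.q

lemma rho_pi {k j : ℕ} (h : k ≤ j) (z : Cantor) : rho k (pi' j z) = rho k z := by
  funext i
  show (if h : (i : ℕ) < j then rho j z ⟨i, h⟩ else false) = z i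
  rw [dif_pos (lt_of_lt_of_le i.2 h)]
  rfl

lemma pi_pi {k j : ℕ} (h : k ≤ j) : (pi' k).comp (pi' j) = pi' k := by
  ext z
  show zet k (rho k (pi' j z)) _ = zet k (rho k z) _
  rw [rho_pi h]

lemma bOf_aOf {r k : ℕ} (S : Stage Ω r k) : (bOf S).comp (aOf S) = pi' k := by
  ext z
  show zet k (S.q (S.y (rho k z))) _ = zet k (rho k z) _
  rw [S.qy]

lemma aOf_pi {r k : ℕ} (S : Stage Ω r k) : (aOf S).comp (pi' k) = aOf S := by
  ext z
  show S.y (rho k (pi' k z)) = S.y (rho k z)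
  rw [rho_pi le_rfl]

lemma pi_bOf {r k : ℕ} (S : Stage Ω r k) : (pi' k).comp (bOf S) = bOf S := by
  ext w
  show zet k (rho k (zet k (S.q w))) _ = zet k (S.q w) _
  rw [rho_zet]

lemma pi_bOf_succ {r r' k : ℕ} (S : Stage Ω r k) (S' : Stage Ω r' (k + 1))
    (h : ∀ w, Fin.init (S'.q w) = S.q w) : (pi' k).comp (bOf S') = bOf S := by
  ext w i
  show zet k (rho k (zet (k + 1) (S'.q w))) _ = zet k (S.q w) _
  have : rho k (zet (k + 1) (S'.q w)) = S.q w := by
    rw [← h w]
    funext i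
    show (if h : (i : ℕ) < k + 1 then S'.q w ⟨i, h⟩ else false) = Fin.init (S'.q w) i
    rw [dif_pos (Nat.lt_succ_of_lt i.2)]
    rfl
  rw [this]

end Stg

/-! ### one step -/

section Step

variable {Ω : Type} [TopologicalSpace Ω] [CompactSpace Ω] [T2Space Ω] [TotallyDisconnectedSpace Ω]

/-- the iterated kernel modules of `C(X)` -/
abbrev PX (X : Type) [TopologicalSpace X] [CompactSpace X] (n : ℕ) : Bim C(X, ℂ) C(X, ℂ) :=
  Kp n (plusBim C(X, ℂ))

/-- the elementary tensors of the kernel modules -/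
def tk (X : Type) [TopologicalSpace X] [CompactSpace X] (n : ℕ) :
    C(X, ℂ) →L[ℂ] (PX X n).carrier →L[ℂ] (PX X (n + 1)).carrier :=
  (Kp n (plusBim C(X, ℂ))).tn

/-- `km` of a composition operator -/
abbrev kc {X Y : Type} [TopologicalSpace X] [CompactSpace X] [TopologicalSpace Y]
    [CompactSpace Y] (α : C(Y, X)) (n : ℕ) : (PX X n).carrier →L[ℂ] (PX Y n).carrier :=
  km (cm α) n

lemma kc_comp (hKM : S_KM) {X Y Z : Type} [TopologicalSpace X] [CompactSpace X]
    [TopologicalSpace Y] [CompactSpace Y] [TopologicalSpace Z] [CompactSpace Z] (n : ℕ)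
    (α : C(Y, X)) (β : C(Z, Y)) (x : (PX X n).carrier) :
    kc β n (kc α n x) = kc (α.comp β) n x := by
  rw [← (hKM C(X, ℂ) C(Y, ℂ) C(Z, ℂ) n).2.2.1 (cm α) (cm β) x, cm_comp]

lemma norm_kc (hKM : S_KM) {X Y : Type} [TopologicalSpace X] [CompactSpace X]
    [TopologicalSpace Y] [CompactSpace Y] (n : ℕ) (α : C(Y, X)) : ‖kc α n‖ ≤ 1 :=
  (hKM C(X, ℂ) C(Y, ℂ) C(Y, ℂ) n).2.1 (cm α) (norm_cm_le α)

lemma kc_finrank (hKM : S_KM) (n k : ℕ) :
    FiniteDimensional ℂ (LinearMap.range (kc (pi' k) n).toLinearMap) :=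
  (hKM C(Cantor, ℂ) C(Cantor, ℂ) C(Cantor, ℂ) n).2.2.2.2.2 _ (finrank_cm_pi k)

lemma finrank_R (hKM : S_KM) {n r k : ℕ} (T : (PX Ω n).carrier →L[ℂ] (PX Ω (n + 1)).carrier)
    (S : Stage Ω r k) :
    FiniteDimensional ℂ (LinearMap.range (T.comp (kc (bOf S) n)).toLinearMap) := by
  have := kc_finrank hKM n k
  have h : LinearMap.range (T.comp (kc (bOf S) n)).toLinearMap ≤
      (LinearMap.range (kc (pi' k) n).toLinearMap).map
        (T.comp (kc (bOf S) n)).toLinearMap := by
    rintro _ ⟨x, rfl⟩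
    refine ⟨kc (pi' k) n x, ⟨x, rfl⟩, ?_⟩
    show T (kc (bOf S) n (kc (pi' k) n x)) = T (kc (bOf S) n x)
    rw [kc_comp hKM, pi_bOf]
  exact Submodule.finiteDimensional_of_le h

lemma step (hKM : S_KM) (hST : S_STEP) {n r k : ℕ}
    (T : (PX Ω n).carrier →L[ℂ] (PX Ω (n + 1)).carrier) (S : Stage Ω (r + 1) k) {ε : ℝ}
    (hε : 0 < ε) : ∃ S' : Stage Ω r (k + 1), (∀ w, Fin.init (S'.q w) = S.q w) ∧
      ‖(kc (aOf S') (n + 1) - kc (aOf S) (n + 1)).comp (T.comp (kc (bOf S) n))‖ ≤ ε := by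
  set y₀ : (Fin (k + 1) → Bool) → Ω := fun s => S.y (Fin.init s) with hy₀
  have e0 : ay y₀ = aOf S := by
    ext z
    show S.y (Fin.init (rho (k + 1) z)) = S.y (rho k z)
    rfl
  have h1 := (hKM C(Ω, ℂ) C(Cantor, ℂ) C(Cantor, ℂ) (n + 1)).2.2.2.2.1 _ (𝓝 y₀)
    (fun y => cm (ay y)) (cm (ay y₀)) (fun y => norm_cm_le _) (fun a => tendsto_ay y₀ a)
  have h2 := tendsto_comp_finrank (T.comp (kc (bOf S) n)) (finrank_R hKM T S) (𝓝 y₀)
    (fun y => kc (ay y) (n + 1)) (kc (ay y₀) (n + 1)) h1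
  have h3 := h2.eventually (gt_mem_nhds hε)
  rw [nhds_pi, Filter.eventually_iff, Filter.mem_pi] at h3
  obtain ⟨I, hI, t, ht, hsub⟩ := h3
  obtain ⟨S', h4, h5, h6⟩ := hST Ω r k S (fun s => interior (t (Fin.snoc s true))) (fun s => by
    refine ⟨isOpen_interior, ?_⟩
    have h7 := ht (Fin.snoc s true)
    rw [mem_interior_iff_mem_nhds]
    have e1 : y₀ (Fin.snoc s true) = S.y s :=
      congrArg S.y (Fin.init_snoc (α := fun _ => Bool) true s)
    rw [e1] at h7
    exact h7)
  refine ⟨S', h4, ?_⟩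
  have h7 : S'.y ∈ I.pi t := by
    intro s _
    have e2 : s = Fin.snoc (Fin.init s) (s (Fin.last k)) := (Fin.snoc_init_self s).symm
    cases hb : s (Fin.last k) with
    | true =>
      rw [hb] at e2
      rw [e2]
      exact interior_subset (h6 (Fin.init s))
    | false =>
      rw [hb] at e2
      have h8 := mem_of_mem_nhds (ht s)
      have e3 : y₀ s = S.y (Fin.init s) := rfl
      rw [e3] at h8
      rw [e2, h5, ← e2]
      exact h8
  have h8 := hsub h7
  rw [e0] at h8
  exact le_of_lt h8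

/-- the properties of the sequences of maps up to `N` -/
structure CH {n : ℕ} (T : (PX Ω n).carrier →L[ℂ] (PX Ω (n + 1)).carrier) (N : ℕ)
    (α : ℕ → C(Cantor, Ω)) (β : ℕ → C(Ω, Cantor)) : Prop where
  ba : ∀ k ≤ N, (β k).comp (α k) = pi' k
  ap : ∀ k ≤ N, (α k).comp (pi' k) = α k
  pb : ∀ k ≤ N, (pi' k).comp (β k) = β k
  pbs : ∀ k < N, (pi' k).comp (β (k + 1)) = β k
  est : ∀ k < N, ‖(kc (α (k + 1)) (n + 1) - kc (α k) (n + 1)).comp (T.comp (kc (β k) n))‖ ≤
    (1 / 2 : ℝ) ^ k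

lemma chain (hKM : S_KM) (hST : S_STEP) {n : ℕ} (hΩ : ∀ r, (Dr Ω r).Nonempty)
    (T : (PX Ω n).carrier →L[ℂ] (PX Ω (n + 1)).carrier) : ∀ j r : ℕ,
    ∃ (α : ℕ → C(Cantor, Ω)) (β : ℕ → C(Ω, Cantor)) (S : Stage Ω r j),
      α j = aOf S ∧ β j = bOf S ∧ CH T j α β := by
  intro j
  induction j with
  | zero =>
    intro r
    obtain ⟨p, hp⟩ := hΩ r
    let S : Stage Ω r 0 := ⟨fun _ => p, ⟨fun _ => fun i => i.elim0, continuous_const⟩,
      fun s => funext fun i => i.elim0, fun _ => hp⟩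
    refine ⟨fun _ => aOf S, fun _ => bOf S, S, rfl, rfl, ?_⟩
    constructor
    · intro k hk
      obtain rfl : k = 0 := by omega
      exact bOf_aOf S
    · intro k hk
      obtain rfl : k = 0 := by omega
      exact aOf_pi S
    · intro k hk
      obtain rfl : k = 0 := by omega
      exact pi_bOf S
    · intro k hk
      omega
    · intro k hk
      omega
  | succ j ih =>
    intro r
    obtain ⟨α, β, S, ha, hb, hC⟩ := ih (r + 1)
    obtain ⟨S', h1, h2⟩ := step hKM hST T S (ε := (1 / 2 : ℝ) ^ j) (by positivity)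
    have ea : ∀ k ≤ j, Function.update α (j + 1) (aOf S') k = α k := fun k hk =>
      Function.update_of_ne (by omega) _ _
    have eb : ∀ k ≤ j, Function.update β (j + 1) (bOf S') k = β k := fun k hk =>
      Function.update_of_ne (by omega) _ _
    have ea' : Function.update α (j + 1) (aOf S') (j + 1) = aOf S' := Function.update_self _ _ _
    have eb' : Function.update β (j + 1) (bOf S') (j + 1) = bOf S' := Function.update_self _ _ _
    refine ⟨Function.update α (j + 1) (aOf S'), Function.update β (j + 1) (bOf S'), S', ea', eb',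
      ?_⟩
    constructor
    · intro k hk
      rcases Nat.lt_or_ge k (j + 1) with h | h
      · rw [ea k (by omega), eb k (by omega)]
        exact hC.ba k (by omega)
      · obtain rfl : k = j + 1 := by omega
        rw [ea', eb']
        exact bOf_aOf S'
    · intro k hk
      rcases Nat.lt_or_ge k (j + 1) with h | h
      · rw [ea k (by omega)]
        exact hC.ap k (by omega)
      · obtain rfl : k = j + 1 := by omega
        rw [ea']
        exact aOf_pi S'
    · intro k hk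
      rcases Nat.lt_or_ge k (j + 1) with h | h
      · rw [eb k (by omega)]
        exact hC.pb k (by omega)
      · obtain rfl : k = j + 1 := by omega
        rw [eb']
        exact pi_bOf S'
    · intro k hk
      rcases Nat.lt_or_ge k j with h | h
      · rw [eb k (by omega), eb (k + 1) (by omega)]
        exact hC.pbs k h
      · obtain rfl : k = j := by omega
        rw [eb', eb k le_rfl, hb]
        exact pi_bOf_succ S S' h1
    · intro k hk
      rcases Nat.lt_or_ge k j with h | h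
      · rw [eb k (by omega), ea k (by omega), ea (k + 1) (by omega)]
        exact hC.est k h
      · obtain rfl : k = j := by omega
        rw [ea', eb k le_rfl, ea k le_rfl, hb, ha]
        exact h2

section Chain

variable {n N : ℕ} {T : (PX Ω n).carrier →L[ℂ] (PX Ω (n + 1)).carrier}
  {α : ℕ → C(Cantor, Ω)} {β : ℕ → C(Ω, Cantor)}

lemma CH.pbj (h : CH T N α β) {k j : ℕ} (hkj : k ≤ j) (hj : j ≤ N) :
    (pi' k).comp (β j) = β k := by
  induction j, hkj using Nat.le_induction with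
  | base => exact h.pb k hj
  | succ j hkj ih =>
    have h1 := h.pbs j (by omega)
    calc (pi' k).comp (β (j + 1)) = ((pi' k).comp (pi' j)).comp (β (j + 1)) := by
          rw [pi_pi hkj]
      _ = (pi' k).comp ((pi' j).comp (β (j + 1))) := rfl
      _ = (pi' k).comp (β j) := by rw [h1]
      _ = β k := ih (by omega)

lemma CH.estj (hKM : S_KM) (h : CH T N α β) {k j : ℕ} (hkj : k ≤ j) (hj : j ≤ N)
    (x : (PX Cantor n).carrier) :
    ‖kc (α j) (n + 1) (T (kc (β k) n x)) - kc (α k) (n + 1) (T (kc (β k) n x))‖ ≤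
      (2 * (1 / 2 : ℝ) ^ k - 2 * (1 / 2 : ℝ) ^ j) * ‖x‖ := by
  induction j, hkj using Nat.le_induction with
  | base => simp
  | succ j hkj ih =>
    have h1 := ih (by omega)
    have h2 := h.est j (by omega)
    have h3 : kc (β j) n (kc (pi' k) n x) = kc (β k) n x := by
      rw [kc_comp hKM, h.pbj hkj (by omega)]
    have h4 : ‖kc (α (j + 1)) (n + 1) (T (kc (β k) n x)) -
        kc (α j) (n + 1) (T (kc (β k) n x))‖ ≤ (1 / 2 : ℝ) ^ j * ‖x‖ := by
      rw [← h3]
      calc _ ≤ ‖(kc (α (j + 1)) (n + 1) - kc (α j) (n + 1)).comp (T.comp (kc (β j) n))‖ *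
            ‖kc (pi' k) n x‖ :=
            ((kc (α (j + 1)) (n + 1) - kc (α j) (n + 1)).comp
              (T.comp (kc (β j) n))).le_opNorm (kc (pi' k) n x)
        _ ≤ (1 / 2 : ℝ) ^ j * ‖x‖ := by
            refine mul_le_mul h2 ?_ (norm_nonneg _) (by positivity)
            calc ‖kc (pi' k) n x‖ ≤ ‖kc (pi' k) n‖ * ‖x‖ := (kc (pi' k) n).le_opNorm x
              _ ≤ 1 * ‖x‖ := mul_le_mul_of_nonneg_right (norm_kc hKM n _) (norm_nonneg _)
              _ = ‖x‖ := one_mul _
    have h5 : kc (α (j + 1)) (n + 1) (T (kc (β k) n x)) - kc (α k) (n + 1) (T (kc (β k) n x)) =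
        (kc (α (j + 1)) (n + 1) (T (kc (β k) n x)) - kc (α j) (n + 1) (T (kc (β k) n x))) +
        (kc (α j) (n + 1) (T (kc (β k) n x)) - kc (α k) (n + 1) (T (kc (β k) n x))) := by abel
    rw [h5]
    refine (norm_add_le _ _).trans ((add_le_add h4 h1).trans (le_of_eq ?_))
    rw [pow_succ]
    ring

/-- the transported operator -/
def TN (T : (PX Ω n).carrier →L[ℂ] (PX Ω (n + 1)).carrier) (a : C(Cantor, Ω)) (b : C(Ω, Cantor)) :
    (PX Cantor n).carrier →L[ℂ] (PX Cantor (n + 1)).carrier :=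
  (kc a (n + 1)).comp (T.comp (kc b n))

lemma TN_apply (a : C(Cantor, Ω)) (b : C(Ω, Cantor)) (x : (PX Cantor n).carrier) :
    TN T a b x = kc a (n + 1) (T (kc b n x)) := rfl

lemma norm_kc_apply (hKM : S_KM) {X Y : Type} [TopologicalSpace X] [CompactSpace X]
    [TopologicalSpace Y] [CompactSpace Y] (n : ℕ) (α : C(Y, X)) (x : (PX X n).carrier) :
    ‖kc α n x‖ ≤ ‖x‖ :=
  ((kc α n).le_opNorm x).trans
    ((mul_le_mul_of_nonneg_right (norm_kc hKM n α) (norm_nonneg _)).trans (le_of_eq (one_mul _)))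

lemma norm_TN_apply (hKM : S_KM) (a : C(Cantor, Ω)) (b : C(Ω, Cantor))
    (x : (PX Cantor n).carrier) : ‖TN T a b x‖ ≤ ‖T‖ * ‖x‖ := by
  rw [TN_apply]
  calc _ ≤ ‖T (kc b n x)‖ := norm_kc_apply hKM _ _ _
    _ ≤ ‖T‖ * ‖kc b n x‖ := T.le_opNorm _
    _ ≤ ‖T‖ * ‖x‖ := mul_le_mul_of_nonneg_left (norm_kc_apply hKM _ _ _) (norm_nonneg _)

lemma TN_left (hKM : S_KM)
    (hT : ∀ a x, tk Ω n a x = (PX Ω (n + 1)).left a (T x) - T ((PX Ω n).left a x))
    {a : C(Cantor, Ω)} {b : C(Ω, Cantor)} {π : C(Cantor, Cantor)} (hab : b.comp a = π)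
    (f : C(Cantor, ℂ)) (x : (PX Cantor n).carrier) :
    TN T a b ((PX Cantor n).left f x) = (PX Cantor (n + 1)).left (cm π f) (TN T a b x) -
      tk Cantor n (cm π f) (kc π n x) := by
  have e1 := (hKM C(Cantor, ℂ) C(Ω, ℂ) C(Ω, ℂ) n).1 (cm b) (cm_mul b)
  have e2 := (hKM C(Ω, ℂ) C(Cantor, ℂ) C(Ω, ℂ) (n + 1)).1 (cm a) (cm_mul a)
  have e3 : T ((PX Ω n).left (cm b f) (kc b n x)) =
      (PX Ω (n + 1)).left (cm b f) (T (kc b n x)) - tk Ω n (cm b f) (kc b n x) := by
    rw [hT]; abel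
  have e4 : kc a (n + 1) (tk Ω n (cm b f) (kc b n x)) =
      tk Cantor n (cm a (cm b f)) (kc a n (kc b n x)) := km_tn (cm a) n (cm b f) (kc b n x)
  have e5 : cm a (cm b f) = cm π f := by
    rw [← hab, ← cm_comp]; rfl
  rw [TN_apply, TN_apply]
  have e6 : kc b n ((PX Cantor n).left f x) = (PX Ω n).left (cm b f) (kc b n x) := e1.1 f x
  rw [e6, e3, map_sub, e4, kc_comp hKM, hab, e5]
  have e7 : kc a (n + 1) ((PX Ω (n + 1)).left (cm b f) (T (kc b n x))) =
    (PX Cantor (n + 1)).left (cm a (cm b f)) (kc a (n + 1) (T (kc b n x))) := e2.1 _ _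
  rw [e7, e5]

lemma TN_right (hKM : S_KM)
    (hT : ∀ a x, T ((PX Ω n).right a x) = (PX Ω (n + 1)).right a (T x))
    {a : C(Cantor, Ω)} {b : C(Ω, Cantor)} {π : C(Cantor, Cantor)} (hab : b.comp a = π)
    (f : C(Cantor, ℂ)) (x : (PX Cantor n).carrier) :
    TN T a b ((PX Cantor n).right f x) = (PX Cantor (n + 1)).right (cm π f) (TN T a b x) := by
  have e1 := (hKM C(Cantor, ℂ) C(Ω, ℂ) C(Ω, ℂ) n).1 (cm b) (cm_mul b)
  have e2 := (hKM C(Ω, ℂ) C(Cantor, ℂ) C(Ω, ℂ) (n + 1)).1 (cm a) (cm_mul a)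
  have e5 : cm a (cm b f) = cm π f := by
    rw [← hab, ← cm_comp]; rfl
  have e6 : kc b n ((PX Cantor n).right f x) = (PX Ω n).right (cm b f) (kc b n x) := e1.2 f x
  have e7 : kc a (n + 1) ((PX Ω (n + 1)).right (cm b f) (T (kc b n x))) =
    (PX Cantor (n + 1)).right (cm a (cm b f)) (kc a (n + 1) (T (kc b n x))) := e2.2 _ _
  rw [TN_apply, TN_apply, e6, hT, e7, e5]

/-- approximation by vectors of a finite dimensional space -/
lemma approx (hKM : S_KM) (h : CH T N α β) {k : ℕ} (hk : k ≤ N) (x : (PX Cantor n).carrier) :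
    ‖TN T (α N) (β N) x - kc (pi' k) (n + 1) (kc (α k) (n + 1) (T (kc (β k) n x)))‖ ≤
      ‖T‖ * ‖x - kc (pi' k) n x‖ + 2 * (1 / 2 : ℝ) ^ k * ‖x‖ := by
  have h1 : TN T (α N) (β N) (kc (pi' k) n x) = kc (α N) (n + 1) (T (kc (β k) n x)) := by
    rw [TN_apply, kc_comp hKM, h.pbj hk le_rfl]
  have h2 : kc (pi' k) (n + 1) (kc (α k) (n + 1) (T (kc (β k) n x))) =
      kc (α k) (n + 1) (T (kc (β k) n x)) := by
    rw [kc_comp hKM, h.ap k hk]
  have h3 := h.estj hKM hk le_rfl x
  have h4 : TN T (α N) (β N) x - kc (pi' k) (n + 1) (kc (α k) (n + 1) (T (kc (β k) n x))) =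
      TN T (α N) (β N) (x - kc (pi' k) n x) + (kc (α N) (n + 1) (T (kc (β k) n x)) -
        kc (α k) (n + 1) (T (kc (β k) n x))) := by
    rw [h2, map_sub, h1]; abel
  rw [h4]
  refine (norm_add_le _ _).trans (add_le_add (norm_TN_apply hKM _ _ _) (h3.trans ?_))
  refine mul_le_mul_of_nonneg_right ?_ (norm_nonneg _)
  have : (0 : ℝ) ≤ 2 * (1 / 2 : ℝ) ^ N := by positivity
  linarith

lemma tendsto_kc_pi (hKM : S_KM) (x : (PX Cantor n).carrier) :
    Tendsto (fun k => kc (pi' k) n x) atTop (𝓝 x) := by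
  have h := (hKM C(Cantor, ℂ) C(Cantor, ℂ) C(Cantor, ℂ) n)
  have h1 := h.2.2.2.2.1 ℕ atTop (fun k => cm (pi' k)) (ContinuousLinearMap.id ℂ _)
    (fun k => norm_cm_le _) (fun a => tendsto_cm_pi a) x
  rw [h.2.2.2.1 x] at h1
  exact h1

end Chain

lemma totallyBounded_range (hKM : S_KM) {n : ℕ}
    (T : (PX Ω n).carrier →L[ℂ] (PX Ω (n + 1)).carrier)
    (α : ℕ → ℕ → C(Cantor, Ω)) (β : ℕ → ℕ → C(Ω, Cantor)) (h : ∀ N, CH T N (α N) (β N))
    (x : (PX Cantor n).carrier) :
    TotallyBounded (Set.range fun N => TN T (α N N) (β N N) x) := by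
  rw [Metric.totallyBounded_iff]
  intro ε hε
  have h1 : Tendsto (fun k => ‖T‖ * ‖x - kc (pi' k) n x‖ + 2 * (1 / 2 : ℝ) ^ k * ‖x‖) atTop
      (𝓝 0) := by
    have e1 := (tendsto_kc_pi (n := n) hKM x)
    have e2 : Tendsto (fun k => ‖x - kc (pi' k) n x‖) atTop (𝓝 0) := by
      have := (tendsto_const_nhds (x := x)).sub e1
      rw [sub_self] at this
      have := this.norm
      rwa [norm_zero] at this
    have e3 : Tendsto (fun k : ℕ => (1 / 2 : ℝ) ^ k) atTop (𝓝 0) :=
      tendsto_pow_atTop_nhds_zero_of_lt_one (by norm_num) (by norm_num)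
    have e4 := (e2.const_mul ‖T‖).add ((e3.const_mul 2).mul_const ‖x‖)
    simpa using e4
  obtain ⟨k, hk⟩ := (h1.eventually (gt_mem_nhds (half_pos hε))).exists
  set V := LinearMap.range (kc (pi' k) (n + 1)).toLinearMap with hV
  have : FiniteDimensional ℂ V := kc_finrank hKM (n + 1) k
  have : ProperSpace V := FiniteDimensional.proper ℂ V
  have hC : IsCompact ((Submodule.subtypeL V) '' Metric.closedBall (0 : V) (‖T‖ * ‖x‖)) :=
    (isCompact_closedBall _ _).image (Submodule.subtypeL V).continuous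
  obtain ⟨t, ht, hsub⟩ := Metric.totallyBounded_iff.1 hC.totallyBounded (ε / 2) (half_pos hε)
  refine ⟨t ∪ (fun N => TN T (α N N) (β N N) x) '' (Set.Iio k),
    ht.union ((Set.finite_Iio k).image _), ?_⟩
  rintro _ ⟨N, rfl⟩
  rcases Nat.lt_or_ge N k with hN | hN
  · refine Set.mem_iUnion₂.2 ⟨TN T (α N N) (β N N) x, Or.inr ⟨N, hN, rfl⟩, ?_⟩
    exact Metric.mem_ball_self hε
  · set y := kc (pi' k) (n + 1) (kc (α N k) (n + 1) (T (kc (β N k) n x))) with hy
    have hyn : ‖y‖ ≤ ‖T‖ * ‖x‖ :=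
      (norm_kc_apply hKM _ _ _).trans (norm_TN_apply hKM (α N k) (β N k) x)
    have hyV : y ∈ V := ⟨_, rfl⟩
    have hyC : y ∈ (Submodule.subtypeL V) '' Metric.closedBall (0 : V) (‖T‖ * ‖x‖) :=
      ⟨⟨y, hyV⟩, by rw [mem_closedBall_zero_iff]; exact hyn, rfl⟩
    obtain ⟨z, hz, hz2⟩ := Set.mem_iUnion₂.1 (hsub hyC)
    refine Set.mem_iUnion₂.2 ⟨z, Or.inl hz, ?_⟩
    have h5 := approx hKM (h N) hN x
    rw [Metric.mem_ball] at hz2 ⊢
    calc dist (TN T (α N N) (β N N) x) z ≤ dist (TN T (α N N) (β N N) x) y + dist y z :=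
          dist_triangle _ _ _
      _ < ε / 2 + ε / 2 := by
          refine add_lt_add_of_le_of_lt ?_ hz2
          rw [dist_eq_norm]
          exact h5.trans hk.le
      _ = ε := by ring

end Step

lemma exists_T' {Ω : Type} [TopologicalSpace Ω] [CompactSpace Ω] [T2Space Ω] {n : ℕ}
    (hres : (plusBim C(Ω, ℂ)).HasResolution n) :
    ∃ T : (PX Ω n).carrier →L[ℂ] (PX Ω (n + 1)).carrier,
      (∀ a x, T ((PX Ω n).right a x) = (PX Ω (n + 1)).right a (T x)) ∧
      ∀ a x, tk Ω n a x = (PX Ω (n + 1)).left a (T x) - T ((PX Ω n).left a x) :=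
  Projective.exists_T (Kp_projective plusBim_rproj hres)

/-- **infinite height** -/
theorem lim : S_LIM := by
  intro hKM hST Ω _ _ _ _ n hΩ hres
  obtain ⟨T, hT1', hT2'⟩ := exists_T' hres
  have hch := fun N => chain hKM hST hΩ T N 0
  choose α β S _ _ hC using hch
  set U : Ultrafilter ℕ := Filter.hyperfilter ℕ with hU
  have hUle : (U : Filter ℕ) ≤ atTop := Nat.hyperfilter_le_atTop
  set F : ℕ → (PX Cantor n).carrier →L[ℂ] (PX Cantor (n + 1)).carrier :=
    fun N => TN T (α N N) (β N N) with hF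
  have hex : ∀ x, ∃ y, Tendsto (fun N => F N x) U (𝓝 y) := by
    intro x
    have h1 := totallyBounded_range hKM T α β hC x
    have h2 : IsCompact (closure (Set.range fun N => F N x)) :=
      h1.closure.isCompact_of_isClosed isClosed_closure
    obtain ⟨y, _, hy⟩ := h2.ultrafilter_le_nhds' (U.map fun N => F N x) (by
      rw [Ultrafilter.mem_map]
      exact Filter.univ_mem' fun N => subset_closure ⟨N, rfl⟩)
    exact ⟨y, hy⟩
  choose L hL using hex
  let TB0 : (PX Cantor n).carrier →ₗ[ℂ] (PX Cantor (n + 1)).carrier :=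
    { toFun := L
      map_add' := fun x y => by
        refine tendsto_nhds_unique (hL (x + y)) ?_
        have := (hL x).add (hL y)
        refine this.congr fun N => ?_
        rw [map_add]
      map_smul' := fun c x => by
        refine tendsto_nhds_unique (hL (c • x)) ?_
        have := (hL x).const_smul c
        refine this.congr fun N => ?_
        rw [map_smul] }
  let TB : (PX Cantor n).carrier →L[ℂ] (PX Cantor (n + 1)).carrier :=
    TB0.mkContinuous ‖T‖ (fun x => by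
      refine le_of_tendsto (hL x).norm (Filter.Eventually.of_forall fun N => ?_)
      exact norm_TN_apply hKM _ _ _)
  have hTB : ∀ x, Tendsto (fun N => F N x) U (𝓝 (TB x)) := hL
  have hpi : ∀ f : C(Cantor, ℂ), Tendsto (fun N => cm (pi' N) f) U (𝓝 f) := fun f =>
    (tendsto_cm_pi f).mono_left hUle
  have hkp : ∀ x : (PX Cantor n).carrier, Tendsto (fun N => kc (pi' N) n x) U (𝓝 x) := fun x =>
    (tendsto_kc_pi hKM x).mono_left hUle
  have hR : ∀ (f : C(Cantor, ℂ)) (x : (PX Cantor n).carrier),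
      TB ((PX Cantor n).right f x) = (PX Cantor (n + 1)).right f (TB x) := by
    intro f x
    refine tendsto_nhds_unique (hTB ((PX Cantor n).right f x)) ?_
    have h0 : Tendsto (fun N => (PX Cantor (n + 1)).right (cm (pi' N) f)) U
        (𝓝 ((PX Cantor (n + 1)).right f)) :=
      ((PX Cantor (n + 1)).right.continuous.tendsto f).comp (hpi f)
    have h1 : Tendsto (fun N => (PX Cantor (n + 1)).right (cm (pi' N) f) (F N x)) U
        (𝓝 ((PX Cantor (n + 1)).right f (TB x))) := tendsto_clm_apply h0 (hTB x)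
    refine h1.congr fun N => ?_
    exact (TN_right hKM hT1' ((hC N).ba N le_rfl) f x).symm
  have hLf : ∀ (f : C(Cantor, ℂ)) (x : (PX Cantor n).carrier),
      tk Cantor n f x = (PX Cantor (n + 1)).left f (TB x) - TB ((PX Cantor n).left f x) := by
    intro f x
    have h0 : Tendsto (fun N => (PX Cantor (n + 1)).left (cm (pi' N) f)) U
        (𝓝 ((PX Cantor (n + 1)).left f)) :=
      ((PX Cantor (n + 1)).left.continuous.tendsto f).comp (hpi f)
    have h1 : Tendsto (fun N => (PX Cantor (n + 1)).left (cm (pi' N) f) (F N x)) U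
        (𝓝 ((PX Cantor (n + 1)).left f (TB x))) := tendsto_clm_apply h0 (hTB x)
    have h2 := hTB ((PX Cantor n).left f x)
    have h30 : Tendsto (fun N => tk Cantor n (cm (pi' N) f)) U (𝓝 (tk Cantor n f)) :=
      ((tk Cantor n).continuous.tendsto f).comp (hpi f)
    have h3 : Tendsto (fun N => tk Cantor n (cm (pi' N) f) (kc (pi' N) n x)) U
        (𝓝 (tk Cantor n f x)) := tendsto_clm_apply h30 (hkp x)
    refine tendsto_nhds_unique h3 ?_
    have h4 := h1.sub h2
    refine h4.congr fun N => ?_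
    have h5 := TN_left hKM hT2' ((hC N).ba N le_rfl) f x
    have h6 : F N ((PX Cantor n).left f x) = (PX Cantor (n + 1)).left (cm (pi' N) f) (F N x) -
      tk Cantor n (cm (pi' N) f) (kc (pi' N) n x) := h5
    rw [h6]
    abel
  exact hasResolution_of_Kp n plusBim_rproj (projective_of_T (plusBim_rproj.Kp n) TB hR hLf)

end

end Pool.Agent.W338.DT
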